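import Pool.Agent.helper53.ORT.Spec

/-!
# MP_561ff4_al, project ort: module CM2
-/

set_option autoImplicit false

namespace Pool.Agent.ORT

open Module Pool.Agent.GS

theorem CM2_pow {F V : Type} [Field F] [AddCommGroup V] [Module F V] (c : Equiv.Perm V)
    (hl : Lin F c) (e₁ e₂ : V) (M : Matrix (Fin 2) (Fin 2) F)
    (h1 : c e₁ = M 0 0 • e₁ + M 1 0 • e₂) (h2 : c e₂ = M 0 1 • e₁ + M 1 1 • e₂) (j : ℕ) :
    (c ^ j) e₁ = (M ^ j) 0 0 • e₁ + (M ^ j) 1 0 • e₂ ∧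
      (c ^ j) e₂ = (M ^ j) 0 1 • e₁ + (M ^ j) 1 1 • e₂ := by
  induction j with
  | zero => simp
  | succ j ih =>
    obtain ⟨i1, i2⟩ := ih
    have hc : ∀ x, (c ^ (j + 1)) x = c ((c ^ j) x) := by
      intro x
      rw [pow_succ', Equiv.Perm.mul_apply]
    have hM : ∀ a b, (M ^ (j + 1)) a b = M a 0 * (M ^ j) 0 b + M a 1 * (M ^ j) 1 b := by
      intro a b
      rw [pow_succ', Matrix.mul_apply, Fin.sum_univ_two]
    refine ⟨?_, ?_⟩
    · rw [hc, i1, hl.1, hl.2, hl.2, h1, h2, hM, hM]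
      module
    · rw [hc, i2, hl.1, hl.2, hl.2, h1, h2, hM, hM]
      module

theorem CM2 (bkb : BKB_stmt) (nom : NOM_stmt) : CM2_stmt := by
  intro F V _ _ _ _ _ B h2 hB h7 y ψ ν hy T hT hCm
  obtain ⟨t, ht, hPl, hFx⟩ := hCm
  have hc : y * t * y⁻¹ * t⁻¹ ∈ Om B :=
    (Om B).mul_mem ((nom B y ψ ν hy t).1 ht) ((Om B).inv_mem ht)
  refine bkb B h2 hB h7 y (y * t * y⁻¹ * t⁻¹) hc (Gn.comm ht) ?_ hFx
  intro j hj
  obtain ⟨e₁, e₂, M, hli, hdet, htr, hM1, hM2⟩ := hPl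
  obtain ⟨p1, p2⟩ := CM2_pow (y * t * y⁻¹ * t⁻¹) (Om_le B hc).1 e₁ e₂ M hM1 hM2 j
  rw [hj, Equiv.Perm.one_apply] at p1 p2
  rw [LinearIndependent.pair_iff] at hli
  obtain ⟨a1, a2⟩ := hli ((M ^ j) 0 0 - 1) ((M ^ j) 1 0) (by
    rw [sub_smul, one_smul, sub_add_eq_add_sub, ← p1, sub_self])
  obtain ⟨b1, b2⟩ := hli ((M ^ j) 0 1) ((M ^ j) 1 1 - 1) (by
    rw [sub_smul, one_smul, ← add_sub_assoc, ← p2, sub_self])
  have hMj : M ^ j = 1 := by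
    ext i k
    fin_cases i <;> fin_cases k
    · simpa using sub_eq_zero.1 a1
    · simpa using b1
    · simpa using a2
    · simpa using sub_eq_zero.1 b2
  exact even_iff_two_dvd.2 (hT M hdet htr j hMj)

end Pool.Agent.ORT
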